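import Pool.Agent.H.MP_c0a4b6_co.B

namespace Pool.Agent.Results.MP_973d57_co.Yes

open Matrix Sum Pool.Agent.H.MP_c0a4b6_co

theorem result {K V : Type} [Field K] [StarRing K] [AddCommGroup V] [Module K V]
    (ν : K → WithTop ℝ) (hν : IsVal ν) (hs : ∀ a, ν (star a) = ν a) (n : ℕ) (b : V → V → K)
    (hadd₁ : ∀ x y z, b (x + y) z = b x z + b y z) (hadd₂ : ∀ x y z, b x (y + z) = b x y + b x z)
    (hsmul : ∀ (c d : K) x y, b (c • x) (d • y) = c * star d * b x y)
    (hherm : ∀ x y, b x y = star (b y x))
    (β : Module.Basis (Fin n ⊕ Fin n ⊕ Unit) K V)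
    (hee : ∀ i j, b (β (inl i)) (β (inl j)) = 0)
    (hff : ∀ i j, b (β (inr (inl i))) (β (inr (inl j))) = 0)
    (hef : ∀ i j, b (β (inl i)) (β (inr (inl j))) = if i = j then 1 else 0)
    (heg : ∀ i, b (β (inl i)) (β (inr (inr ()))) = 0)
    (hfg : ∀ i, b (β (inr (inl i))) (β (inr (inr ()))) = 0)
    (L : Submodule K V) (hL : ∀ x ∈ L, ∀ y ∈ L, b x y = 0) (r : Module.Basis (Fin n) K L) :
    IsValDelta fun S : Finset (Fin n) => ν (Matrix.of fun k i : Fin n =>
      if i ∈ S then β.repr (r k) (inl i) else β.repr (r k) (inr (inl i))).det := by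
  have hfe : ∀ i j, b (β (inr (inl i))) (β (inl j)) = if i = j then 1 else 0 := fun i j => by
    rw [hherm, hef]
    by_cases h : i = j
    · simp [h]
    · simp [h, Ne.symm h]
  have hge : ∀ i, b (β (inr (inr ()))) (β (inl i)) = 0 := fun i => by rw [hherm, heg, star_zero]
  have hgf : ∀ i, b (β (inr (inr ()))) (β (inr (inl i))) = 0 := fun i => by
    rw [hherm, hfg, star_zero]
  have hexp : ∀ x y, b x y = ∑ s, ∑ t, β.repr x s * star (β.repr y t) * b (β s) (β t) := by
    intro x y
    conv_lhs => rw [← β.sum_repr x, ← β.sum_repr y]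
    refine (map_sum (AddMonoidHom.mk' (fun x => b x _) fun x y => hadd₁ x y _) _ _).trans ?_
    refine Finset.sum_congr rfl fun s _ => ?_
    refine (map_sum (AddMonoidHom.mk' (fun y => b _ y) fun x y => hadd₂ _ x y) _ _).trans ?_
    exact Finset.sum_congr rfl fun t _ => hsmul _ _ _ _
  have := core hν hs (Matrix.of fun i k => β.repr (r k) (inr (inl i)))
    (Matrix.of fun i k => β.repr (r k) (inl i)) (fun k => star (β.repr (r k) (inr (inr ()))))
    (fun k => -(β.repr (r k) (inr (inr ())) * b (β (inr (inr ()))) (β (inr (inr ()))))) (by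
      ext k l
      have h := hL _ (r l).2 _ (r k).2
      rw [hexp] at h
      simp only [Fintype.sum_sum_type, Finset.univ_unique, Finset.sum_singleton, hee, hff, hef,
        hfe, heg, hfg, hge, hgf, mul_zero, Finset.sum_const_zero, add_zero, zero_add, mul_ite,
        mul_one, Finset.sum_ite_eq, Finset.mem_univ, if_true] at h
      simp only [Matrix.add_apply, Matrix.mul_apply, conjTranspose_apply, of_apply,
        vecMulVec_apply]
      simp only [mul_comm (star _)]
      linear_combination h)
  convert this using 3 with S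
  rw [← det_transpose]
  rfl

end Pool.Agent.Results.MP_973d57_co.Yes
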